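import Pool.Agent.H740R3.BQStmts

/-! Task T3s of project H740-BQ: convolution of shifted sequences. -/

set_option autoImplicit false

namespace Pool.Agent.H493R3.BQ

open Pool.Agent.H740R3.BQ

theorem coeff_mul_range (f g : ℕ → ℂ) (k : ℕ) :
    PowerSeries.coeff k (PowerSeries.mk f * PowerSeries.mk g) =
      ∑ j ∈ Finset.range (k + 1), f j * g (k - j) := by
  rw [PowerSeries.coeff_mul, Finset.Nat.sum_antidiagonal_eq_sum_range_succ_mk]
  simp only [PowerSeries.coeff_mk]

theorem mk_shift (a : ℕ) (f : ℕ → ℂ) :
    PowerSeries.mk (fun i => if a ≤ i then f (i - a) else 0) =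
      PowerSeries.X ^ a * PowerSeries.mk f := by
  ext n
  rw [PowerSeries.coeff_mk, PowerSeries.coeff_X_pow_mul']
  simp only [PowerSeries.coeff_mk]

theorem t3s : T3s := by
  intro D a b δ η
  ext k
  have h1 : cv (shv D a δ) (shv D b η) k = ∑ i ∈ Finset.range (k + 1),
      (if a ≤ i then δ (i - a) else 0) * (if b ≤ (k : ℕ) - i then η ((k : ℕ) - i - b) else 0) := by
    unfold cv
    have h2 : ∀ i : Fin D, (∑ j : Fin D, if (i : ℕ) + j = k then
        shv D a δ i * shv D b η j else 0) =
        (fun i : ℕ => if i ≤ (k : ℕ) then (if a ≤ i then δ (i - a) else 0) *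
          (if b ≤ (k : ℕ) - i then η ((k : ℕ) - i - b) else 0) else 0) i := by
      intro i
      by_cases hik : (i : ℕ) ≤ (k : ℕ)
      · simp only [if_pos hik]
        rw [Finset.sum_eq_single (⟨(k : ℕ) - i, by omega⟩ : Fin D)]
        · rw [if_pos (by simp only; omega)]
          rfl
        · intro j _ hj
          rw [if_neg]
          intro h
          apply hj
          apply Fin.ext
          simp only
          omega
        · intro h
          exact absurd (Finset.mem_univ _) h
      · simp only [if_neg hik]
        apply Finset.sum_eq_zero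
        intro j _
        rw [if_neg (by omega)]
    rw [Finset.sum_congr rfl (fun i _ => h2 i), Fin.sum_univ_eq_sum_range (fun i : ℕ =>
      if i ≤ (k : ℕ) then (if a ≤ i then δ (i - a) else 0) *
          (if b ≤ (k : ℕ) - i then η ((k : ℕ) - i - b) else 0) else 0) D]
    rw [← Finset.sum_filter]
    apply Finset.sum_congr
    · ext i
      simp only [Finset.mem_filter, Finset.mem_range]
      omega
    · intro i _
      rfl
  rw [h1, ← coeff_mul_range (fun i => if a ≤ i then δ (i - a) else 0)
    (fun j => if b ≤ j then η (j - b) else 0), mk_shift, mk_shift]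
  have h3 : (PowerSeries.X ^ a * PowerSeries.mk δ) * (PowerSeries.X ^ b * PowerSeries.mk η) =
      PowerSeries.X ^ (a + b) * (PowerSeries.mk δ * PowerSeries.mk η) := by
    rw [pow_add]
    ring
  rw [h3, PowerSeries.coeff_X_pow_mul', coeff_mul_range]
  rfl

end Pool.Agent.H493R3.BQ
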